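import Pool.Agent.Lib.MP_216314_pr.L.Run
import Pool.Agent.Lib.MP_216314_pr.Par

/-!
# The interface separates (adaptation of `Sep`)
-/

set_option autoImplicit false

noncomputable section

namespace FKI.L

open Finset

/-- if the interface of the configuration with `e` open passes at both sides of `e`, then the endpoints of `e` are
not connected without `e` -/
theorem not_reach {m n : ℕ} {b c : ℤ} (hg : Geo m n b c) {ω : Finset Edge} {e : Edge}
    (he : e ∈ edges m n) (hω : ω ∈ cfg m n b c) (heω : e ∉ ω)
    (h1 : c1 e ∈ DD (insert e ω) b c) (h2 : c2 e ∈ DD (insert e ω) b c) :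
    ¬ (gr ω).Reachable (ea e) (eb e) := by
  intro hr
  obtain ⟨ch, hc0, hcb⟩ := pth hr
  have hωe : ω ⊆ edges m n := (mem_cfg.1 hω).1
  have harc : arc b c ⊆ ω := (mem_cfg.1 hω).2
  have hins : insert e ω ∈ cfg m n b c := by
    refine mem_cfg.2 ⟨?_, harc.trans (subset_insert _ _)⟩
    intro x hx
    rcases mem_insert.1 hx with rfl | hx
    · exact he
    · exact hωe hx
  have hrow : ∀ x k t, k < 0 → (x, k, t) ∉ edges m n := by
    intro x k t hk hmem
    rcases mem_edges.1 hmem with h | h
    · omega
    · omega
  have htwo : ∀ z : ZMod 2, z + z = 0 := by decide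
  have hclo : Clo (ch + sg e) := by
    constructor
    · intro v
      rw [bd_add, bd_sg, hcb]
      exact htwo _
    · intro x k t hk
      have h1 : (x, k, t) ∉ edges m n := hrow x k t (by omega)
      have h2 : (x, k, t) ∉ ω := fun h => h1 (hωe h)
      have h3 : (x, k, t) ≠ e := fun h => h1 (h ▸ he)
      simp [hc0 _ h2, sg, h3]
  have hzero : ∀ e' ∉ insert e ω, (ch + sg e) e' = 0 := by
    intro e' he'
    rw [mem_insert, not_or] at he'
    simp [hc0 _ he'.2, sg, he'.1]
  have hconst : ∀ t : ℕ, par (ch + sg e) ((next (insert e ω))^[t] (rr b)) = par (ch + sg e) (rr b) := by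
    intro t
    induction t with
    | zero => rfl
    | succ t ih =>
      rw [Function.iterate_succ_apply', par_next hclo (insert e ω)]
      · rw [ih]
        by_cases h : edgeOf ((next (insert e ω))^[t] (rr b)) ∈ insert e ω
        · simp [h]
        · rw [if_neg h, hzero _ h, add_zero]
      · have := orbit_mem_cor hg hins t
        simp only [cor, mem_product, mem_Icc] at this
        exact this.2.1
  obtain ⟨i, -, hi⟩ := mem_run.1 h1
  obtain ⟨j, -, hj⟩ := mem_run.1 h2
  have he0 : 0 ≤ e.2.1 := by
    obtain ⟨u, v, t⟩ := e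
    rcases mem_edges.1 he with h | h
    · exact h.2.2.2.1
    · exact h.2.2.2.1
  have hp := par_c1_c2 hclo e he0
  rw [← hi, ← hj, hconst i, hconst j] at hp
  have hce : (ch + sg e) e = 1 := by
    simp [hc0 _ heω, sg]
  rw [hce] at hp
  have hne : ∀ z : ZMod 2, z ≠ z + 1 := by decide
  exact hne _ hp

/-- if the interface of a configuration passes at both sides of a closed edge `e`, then the endpoints of `e` are
connected -/
theorem reach_of_both {m n : ℕ} {b c : ℤ} (hg : Geo m n b c) {ω : Finset Edge} {e : Edge}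
    (hω : ω ∈ cfg m n b c) (h1 : c1 e ∈ DD ω b c) (h2 : c2 e ∈ DD ω b c) :
    (gr ω).Reachable (ea e) (eb e) := by
  have r1 := DD_reach hg hω h1
  have r2 := DD_reach hg hω h2
  rw [vtx_c1] at r1
  rw [vtx_c2] at r2
  exact r1.symm.trans r2

end FKI.L
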