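import Pool.Agent.Lib.MP_216314_pr.Run

/-!
# The interface when the wired arc goes from `(b,0)` along the lower side to `(0,0)` and along the left side to `(0,c)`

Adaptation of `Run`: the interface stops at the north west corner `(0, 2c+1)` of `(0,c)`.
-/

set_option autoImplicit false

noncomputable section

namespace FKI.L

open Finset

/-- the final corner of the interface -/
def ss (c : ℤ) : V := (0, 2 * c + 1)

/-- the edges of the arc from `(b,0)` through `(0,0)` to `(0,c)` -/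
def arc (b c : ℤ) : Finset Edge := (Ico 0 b ×ˢ ({0} ×ˢ {false})) ∪ ({0} ×ˢ (Ico 0 c ×ˢ {true}))

/-- configurations of the box containing the arc -/
def cfg (m n : ℕ) (b c : ℤ) : Finset (Finset Edge) :=
  (edges m n).powerset.filter (fun ω => arc b c ⊆ ω)

/-- the arc lies in the lower and left side -/
structure Geo (m n : ℕ) (b c : ℤ) : Prop where
  hb0 : 0 ≤ b
  hb : b ≤ m
  hc0 : 0 ≤ c
  hc : c ≤ n

theorem mem_cfg {m n : ℕ} {b c : ℤ} {ω : Finset Edge} :
    ω ∈ cfg m n b c ↔ ω ⊆ edges m n ∧ arc b c ⊆ ω := by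
  unfold cfg
  rw [mem_filter, mem_powerset]

theorem rr_ne_ss {m n : ℕ} {b c : ℤ} (hg : Geo m n b c) : rr b ≠ ss c := by
  intro h
  have h1 : 2 * b + 1 = 0 := congrArg Prod.fst h
  omega

theorem rr_mem {m n : ℕ} {b c : ℤ} (hg : Geo m n b c) : rr b ∈ cor m n := by
  obtain ⟨h1, h2, h3, h4⟩ := hg
  unfold rr cor
  simp only [mem_product, mem_Icc]
  omega

theorem under_left {m n : ℕ} {b c : ℤ} (hg : Geo m n b c) {ω : Finset Edge}
    (hω : ω ∈ cfg m n b c) (i : ℕ) (hi : (i : ℤ) ≤ 2 * c + 1) :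
    (next ω)^[i] (ss c) = (0, 2 * c + 1 - i) := by
  obtain ⟨h1, h2⟩ := mem_cfg.1 hω
  have hc := hg.hc
  induction i with
  | zero => simp [ss]
  | succ i ih =>
    rw [Function.iterate_succ_apply', ih (by push_cast at hi; omega)]
    rcases Nat.even_or_odd' i with ⟨j, hj | hj⟩
    · have e1 : ((0, 2 * c + 1 - (i : ℤ)) : V) = (2 * 0, 2 * (c - j) + 1) := by
        rw [hj]; push_cast; ext <;> simp; ring
      have hn : ((0 : ℤ) - 1, c - (j : ℤ), false) ∉ ω := by
        intro hc
        have := mem_edges.1 (h1 hc)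
        simp at this
      rw [e1, next_NW_closed hn]
      rw [hj]; push_cast; ext <;> simp; ring
    · have e1 : ((0, 2 * c + 1 - (i : ℤ)) : V) = (2 * 0, 2 * (c - j)) := by
        rw [hj]; push_cast; ext <;> simp; ring
      have hn : ((0 : ℤ), c - (j : ℤ) - 1, true) ∈ ω := by
        apply h2
        unfold arc
        simp only [mem_union, mem_product, mem_Ico, mem_singleton, and_true, true_and]
        right
        subst hj
        push_cast at hi
        omega
      rw [e1, next_SW_open hn]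
      rw [hj]; push_cast; ext <;> simp; ring

theorem under_bot {m n : ℕ} {b c : ℤ} (hg : Geo m n b c) {ω : Finset Edge}
    (hω : ω ∈ cfg m n b c) (i : ℕ) (hi : (i : ℤ) ≤ 2 * b + 1) :
    (next ω)^[i] ((0, 0) : V) = ((i : ℤ), 0) := by
  obtain ⟨h1, h2⟩ := mem_cfg.1 hω
  induction i with
  | zero => simp
  | succ i ih =>
    rw [Function.iterate_succ_apply', ih (by push_cast at hi; omega)]
    rcases Nat.even_or_odd' i with ⟨j, hj | hj⟩
    · have e1 : (((i : ℤ), 0) : V) = (2 * (j : ℤ), 2 * 0) := by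
        rw [hj]; push_cast; ext <;> simp
      have hn : ((j : ℤ), (0 : ℤ) - 1, true) ∉ ω := by
        intro hc
        have := mem_edges.1 (h1 hc)
        simp at this
      rw [e1, next_SW_closed hn]
      rw [hj]; push_cast; ext <;> simp
    · have e1 : (((i : ℤ), 0) : V) = (2 * (j : ℤ) + 1, 2 * 0) := by
        rw [hj]; push_cast; ext <;> simp
      have hn : ((j : ℤ), (0 : ℤ), false) ∈ ω := by
        apply h2
        unfold arc
        simp only [mem_union, mem_product, mem_Ico, mem_singleton, and_true, true_and]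
        left
        subst hj
        push_cast at hi
        omega
      rw [e1, next_SE_open hn]
      rw [hj]; push_cast; ext <;> simp; ring

/-- the outer corners along the arc -/
def op (c : ℤ) (i : ℕ) : V := if (i : ℤ) ≤ 2 * c + 1 then (0, 2 * c + 1 - i) else (i - (2 * c + 1), 0)

theorem under {m n : ℕ} {b c : ℤ} (hg : Geo m n b c) {ω : Finset Edge} (hω : ω ∈ cfg m n b c)
    (i : ℕ) (hi : (i : ℤ) ≤ 2 * c + 1 + (2 * b + 1)) : (next ω)^[i] (ss c) = op c i := by
  have hc := hg.hc0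
  unfold op
  split_ifs with h
  · exact under_left hg hω i h
  · obtain ⟨k, hk⟩ : ∃ k : ℕ, (k : ℤ) = 2 * c + 1 := ⟨(2 * c + 1).toNat, by omega⟩
    obtain ⟨j, rfl⟩ : ∃ j : ℕ, i = j + k := ⟨i - k, by omega⟩
    rw [Function.iterate_add_apply, under_left hg hω k (by omega)]
    have e : ((0, 2 * c + 1 - (k : ℤ)) : V) = (0, 0) := by
      rw [hk]; ext <;> simp
    rw [e, under_bot hg hω j (by push_cast at hi; omega)]
    push_cast
    ext <;> simp
    omega

theorem run_ss_rr {m n : ℕ} {b c : ℤ} (hg : Geo m n b c) {ω : Finset Edge}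
    (hω : ω ∈ cfg m n b c) : (next ω)^[(2 * c + 1 + (2 * b + 1)).toNat] (ss c) = rr b := by
  have h1 := hg.hc0
  have h2 := hg.hb0
  have h0 : (((2 * c + 1 + (2 * b + 1)).toNat : ℕ) : ℤ) = 2 * c + 1 + (2 * b + 1) :=
    Int.toNat_of_nonneg (by omega)
  rw [under hg hω _ (by rw [h0])]
  unfold op
  rw [h0, if_neg (by omega)]
  unfold rr
  ext <;> simp

theorem exists_run {m n : ℕ} {b c : ℤ} (hg : Geo m n b c) {ω : Finset Edge}
    (hω : ω ∈ cfg m n b c) : ∃ T, Hits (next ω) (rr b) (ss c) T :=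
  exists_hits (next_inj ω) (cor m n) (fun _ hp => next_mem_cor (mem_cfg.1 hω).1 hp) (rr_mem hg)
    (2 * c + 1 + (2 * b + 1)).toNat (run_ss_rr hg hω)

/-- the length of the interface -/
def TT (ω : Finset Edge) (b c : ℤ) : ℕ := sInf {t : ℕ | (next ω)^[t] (rr b) = ss c}

/-- the interface, without its last corner -/
def DD (ω : Finset Edge) (b c : ℤ) : List V := run (next ω) (rr b) (TT ω b c)

theorem hits {m n : ℕ} {b c : ℤ} (hg : Geo m n b c) {ω : Finset Edge} (hω : ω ∈ cfg m n b c) :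
    Hits (next ω) (rr b) (ss c) (TT ω b c) := by
  obtain ⟨T, hT⟩ := exists_run hg hω
  have hne : {t : ℕ | (next ω)^[t] (rr b) = ss c}.Nonempty := ⟨T, hT.1⟩
  exact ⟨Nat.sInf_mem hne, fun i hi => Nat.notMem_of_lt_sInf hi⟩

theorem orbit_mem_cor {m n : ℕ} {b c : ℤ} (hg : Geo m n b c) {ω : Finset Edge}
    (hω : ω ∈ cfg m n b c) (t : ℕ) : (next ω)^[t] (rr b) ∈ cor m n := by
  induction t with
  | zero => exact rr_mem hg
  | succ t ih =>
    rw [Function.iterate_succ_apply']
    exact next_mem_cor (mem_cfg.1 hω).1 ih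

theorem DD_mem_cor {m n : ℕ} {b c : ℤ} (hg : Geo m n b c) {ω : Finset Edge}
    (hω : ω ∈ cfg m n b c) {p : V} (hp : p ∈ DD ω b c) : p ∈ cor m n := by
  obtain ⟨i, _, rfl⟩ := mem_run.1 hp
  exact orbit_mem_cor hg hω i

theorem run_under_aux {m n : ℕ} {b c : ℤ} (hg : Geo m n b c) {ω : Finset Edge}
    (hω : ω ∈ cfg m n b c) (i : ℕ) (hi : (i : ℤ) ≤ 2 * c + 1 + 2 * b) :
    ∀ t < TT ω b c, (next ω)^[t] (rr b) ≠ op c i := by
  have hc0 := hg.hc0
  have hb0 := hg.hb0
  induction i with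
  | zero =>
    intro t ht h
    refine (hits hg hω).2 t ht ?_
    rw [h]
    unfold op ss
    rw [if_pos (by push_cast; omega)]
    simp
  | succ i ih =>
    intro t ht h
    have hi' : (i : ℤ) + 1 ≤ 2 * c + 1 + 2 * b := by push_cast at hi; exact hi
    cases t with
    | zero =>
      have h1 : rr b = op c (i + 1) := h
      unfold rr op at h1
      split_ifs at h1 with h2
      · have h3 : 2 * b + 1 = 0 := congrArg Prod.fst h1
        omega
      · have h3 : 2 * b + 1 = ((i + 1 : ℕ) : ℤ) - (2 * c + 1) := congrArg Prod.fst h1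
        push_cast at h3
        omega
    | succ t =>
      refine ih (by omega) t (by omega) ?_
      apply next_inj ω
      rw [← Function.iterate_succ_apply' (next ω) t, h, ← under hg hω i (by omega),
        ← Function.iterate_succ_apply' (next ω) i, under hg hω (i + 1) (by push_cast; omega)]

theorem DD_under {m n : ℕ} {b c : ℤ} (hg : Geo m n b c) {ω : Finset Edge}
    (hω : ω ∈ cfg m n b c) {p : V} (hp : p ∈ DD ω b c) :
    ¬ (p.2 = 0 ∧ 0 ≤ p.1 ∧ p.1 ≤ 2 * b) ∧ ¬ (p.1 = 0 ∧ 0 ≤ p.2 ∧ p.2 ≤ 2 * c + 1) := by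
  have hc0 := hg.hc0
  have hb0 := hg.hb0
  obtain ⟨t, ht, hpt⟩ := mem_run.1 hp
  constructor
  · rintro ⟨h1, h2, h3⟩
    have hi : (((p.1 + (2 * c + 1)).toNat : ℕ) : ℤ) = p.1 + (2 * c + 1) :=
      Int.toNat_of_nonneg (by omega)
    refine run_under_aux hg hω (p.1 + (2 * c + 1)).toNat (by omega) t ht ?_
    rw [hpt]
    unfold op
    rw [hi]
    split_ifs with h4
    · ext
      · show p.1 = 0
        omega
      · show p.2 = 2 * c + 1 - (p.1 + (2 * c + 1))
        omega
    · ext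
      · show p.1 = p.1 + (2 * c + 1) - (2 * c + 1)
        omega
      · exact h1
  · rintro ⟨h1, h2, h3⟩
    have hi : (((2 * c + 1 - p.2).toNat : ℕ) : ℤ) = 2 * c + 1 - p.2 :=
      Int.toNat_of_nonneg (by omega)
    refine run_under_aux hg hω (2 * c + 1 - p.2).toNat (by omega) t ht ?_
    rw [hpt]
    unfold op
    rw [hi, if_pos (by omega)]
    ext
    · exact h1
    · show p.2 = 2 * c + 1 - (2 * c + 1 - p.2)
      omega

theorem vtx_rr (b : ℤ) : vtx (rr b) = (b, 0) := by
  unfold vtx rr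
  ext <;> simp
  omega

theorem DD_reach {m n : ℕ} {b c : ℤ} (hg : Geo m n b c) {ω : Finset Edge}
    (hω : ω ∈ cfg m n b c) {p : V} (hp : p ∈ DD ω b c) :
    (gr ω).Reachable (0, 0) (vtx p) := by
  have hc0 := hg.hc0
  have hb0 := hg.hb0
  obtain ⟨t, _, rfl⟩ := mem_run.1 hp
  have h1 := run_reach_iter ω ((0, 0) : V) (2 * b + 1).toNat
  have h0 : (((2 * b + 1).toNat : ℕ) : ℤ) = 2 * b + 1 := Int.toNat_of_nonneg (by omega)
  rw [under_bot hg hω _ (by rw [h0]), h0] at h1
  have h2 : vtx ((0, 0) : V) = (0, 0) := by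
    unfold vtx
    ext <;> simp
  rw [h2] at h1
  exact h1.trans (run_reach_iter ω (rr b) t)

end FKI.L
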