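import Pool.Agent.Lib.MP_216314_pr.WindB
import Pool.Agent.Lib.MP_216314_pr.L.Run

/-!
# The winding of the interface at the boundary, arc through the corner `(0,0)`

Adaptation of `Wind`, `WindB`.
-/

set_option autoImplicit false

noncomputable section

namespace FKI.L

open Finset

theorem Wd_formula {m n : ℕ} {b c : ℤ} (hg : Geo m n b c) {ω : Finset Edge}
    (hω : ω ∈ cfg m n b c) {t : ℕ} (ht : 1 ≤ t) (htT : t ≤ TT ω b c) {A : V → Prop} {l : V → ℤ}
    (hl : IsLift A l) (hA : ∀ i < t, A (pt ω b t - pt ω b i)) :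
    2 * Wd ω b t = dl ω (pt ω b (t - 1)) - 1 + l (pt ω b t - pt ω b (t - 1))
      + lS (pt ω b t - pt ω b 0) - l (pt ω b t - pt ω b 0) := by
  have hinj : ∀ i j, i ≤ t → j ≤ t → pt ω b i = pt ω b j → i = j := by
    intro i j hi hj h
    exact hits_inj (next_inj ω) (hits hg hω) (hi.trans htT) (hj.trans htT) h
  have hstep : ∀ i < t, Unit' (pt ω b i) (pt ω b (i + 1)) := by
    intro i _
    have h := next_unit ω (pt ω b i)
    unfold Unit'
    rw [show pt ω b (i + 1) = next ω (pt ω b i) by simp [pt, Function.iterate_succ_apply']]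
    exact h
  have h1 := hopf (pt ω b) t ht hinj hstep
  have h2 : ∑ i ∈ range (t - 1), turn (pt ω b) i =
      ∑ i ∈ range (t - 1), (dl ω (pt ω b i) + dl ω (pt ω b (i + 1))) := by
    apply sum_congr rfl
    intro i _
    apply turn_eq
    · simp [pt, Function.iterate_succ_apply']
    · simp [pt, Function.iterate_succ_apply']
  have h3 := sum_row lift_S (pt ω b) t ht hinj hstep (by
    intro j _ _ h
    have h4 := orbit_mem_cor hg hω j
    have h5 : (pt ω b 0).2 = 0 := by simp [pt, rr]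
    rw [cor, mem_product, mem_Icc, mem_Icc] at h4
    have h6 : (pt ω b j - pt ω b 0).2 = (pt ω b j).2 - (pt ω b 0).2 := rfl
    have h7 : (pt ω b j).2 = ((next ω)^[j] (rr b)).2 := rfl
    omega)
  have h4 := sum_col hl (pt ω b) t ht hinj hstep hA
  rw [h2, wind_sum ω b ht, h3, h4, wind_first] at h1
  linarith

theorem windb_core {m n : ℕ} {b c : ℤ} (hg : Geo m n b c) {ω : Finset Edge}
    (hω : ω ∈ cfg m n b c) {t : ℕ} (ht : 1 ≤ t) (htT : t ≤ TT ω b c) {A : V → Prop} {l : V → ℤ}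
    (hl : IsLift A l) (hA : ∀ i < t, A (pt ω b t - pt ω b i)) (k e : ℤ)
    (hc : l (pt ω b t - pt ω b (t - 1)) = k - dl ω (pt ω b (t - 1)))
    (hv : lS (pt ω b t - pt ω b 0) - l (pt ω b t - pt ω b 0) = e) :
    2 * Wd ω b t = k - 1 + e := by
  have h := Wd_formula hg hω ht htT hl hA
  linarith

theorem windb_bd {m n : ℕ} {b c : ℤ} (hg : Geo m n b c) {ω : Finset Edge}
    (hω : ω ∈ cfg m n b c) (i : ℕ) : 0 ≤ (pt ω b i).1 ∧ (pt ω b i).1 ≤ 2 * (m : ℤ) + 1 ∧
      0 ≤ (pt ω b i).2 ∧ (pt ω b i).2 ≤ 2 * (n : ℤ) + 1 := by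
  have h := orbit_mem_cor hg hω i
  rw [cor, mem_product, mem_Icc, mem_Icc] at h
  exact ⟨h.1.1, h.1.2, h.2.1, h.2.2⟩

theorem Wd_right {m n : ℕ} {b c : ℤ} (hg : Geo m n b c) {ω : Finset Edge}
    (hω : ω ∈ cfg m n b c) {t : ℕ} (ht : t < TT ω b c) {y : ℤ}
    (hp : pt ω b t = (2 * (m : ℤ) + 1, 2 * y)) : Wd ω b t = 0 := by
  have hb0 := hg.hb0
  have hb := hg.hb
  rcases Nat.eq_zero_or_pos t with h0 | ht1
  · rw [h0]
    simp [Wd]
  have hne : pt ω b t - pt ω b 0 ≠ 0 := by
    intro h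
    have h1 := hits_inj (next_inj ω) (hits hg hω) ht.le (Nat.zero_le _) (sub_eq_zero.1 h)
    omega
  have key := windb_core hg hω ht1 ht.le lift_W (k := 1) (e := 0) (by
    intro i _ h
    have h1 := windb_bd hg hω i
    rw [hp, Prod.fst_sub, Prod.snd_sub] at h
    simp only at h
    omega) (by
    have h1 := (last_step ω (pt ω b (t - 1)) m y).1 (by rw [windb_prev ω b ht1, hp])
    rw [windb_prev ω b ht1] at h1
    rw [h1]
    rcases wind_dl ω (pt ω b (t - 1)) with h5 | h5 <;> rw [h5] <;> decide) (by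
    have h2 := (windb_bd hg hω t).2.2.1
    rw [hp] at h2
    simp only at h2
    rw [hp, windb_zero, Prod.mk_sub_mk] at hne ⊢
    have h1 : cl (2 * (m : ℤ) + 1 - (2 * b + 1), 2 * y - 0) = 0 ∨
        cl (2 * (m : ℤ) + 1 - (2 * b + 1), 2 * y - 0) = 1 ∨
        cl (2 * (m : ℤ) + 1 - (2 * b + 1), 2 * y - 0) = 2 := by
      have hne' : ¬ ((2 * (m : ℤ) + 1 - (2 * b + 1)) = 0 ∧ 2 * y - 0 = 0) := by
        rintro ⟨h3, h4⟩
        exact hne (by rw [h3, h4]; rfl)
      unfold cl
      simp only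
      split_ifs <;> first | (exfalso; omega) | simp
    unfold lS lW
    rcases h1 with h1 | h1 | h1 <;> rw [h1] <;> norm_num)
  omega

theorem Wd_top {m n : ℕ} {b c : ℤ} (hg : Geo m n b c) {ω : Finset Edge}
    (hω : ω ∈ cfg m n b c) {t : ℕ} (ht : t < TT ω b c) {x : ℤ}
    (hp : pt ω b t = (2 * x + 1, 2 * (n : ℤ) + 1)) : Wd ω b t = 1 := by
  have ht1 : 1 ≤ t := by
    rcases Nat.eq_zero_or_pos t with h | h
    · exfalso
      rw [h, windb_zero, Prod.mk.injEq] at hp
      omega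
    · exact h
  have key := windb_core hg hω ht1 ht.le lift_S (k := 3) (e := 0) (by
    intro i _ h
    have h1 := windb_bd hg hω i
    rw [hp, Prod.fst_sub, Prod.snd_sub] at h
    simp only at h
    omega) (by
    have h1 := (last_step ω (pt ω b (t - 1)) x n).2.1 (by rw [windb_prev ω b ht1, hp])
    rw [windb_prev ω b ht1] at h1
    rw [h1]
    rcases wind_dl ω (pt ω b (t - 1)) with h5 | h5 <;> rw [h5] <;> decide) (by
    rw [sub_self])
  omega

theorem Wd_left_le {m n : ℕ} {b c : ℤ} (hg : Geo m n b c) {ω : Finset Edge}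
    (hω : ω ∈ cfg m n b c) {t : ℕ} (ht : t ≤ TT ω b c) {y : ℤ}
    (hp : pt ω b t = (0, 2 * y + 1)) : Wd ω b t = 2 := by
  have hb0 := hg.hb0
  have ht1 : 1 ≤ t := by
    rcases Nat.eq_zero_or_pos t with h | h
    · exfalso
      rw [h, windb_zero, Prod.mk.injEq] at hp
      omega
    · exact h
  have key := windb_core hg hω ht1 ht lift_E (k := 5) (e := 0) (by
    intro i _ h
    have h1 := windb_bd hg hω i
    rw [hp, Prod.fst_sub, Prod.snd_sub] at h
    simp only at h
    omega) (by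
    have h1 := (last_step ω (pt ω b (t - 1)) 0 y).2.2.1 (by rw [windb_prev ω b ht1, hp]; simp)
    rw [windb_prev ω b ht1] at h1
    rw [h1]
    rcases wind_dl ω (pt ω b (t - 1)) with h5 | h5 <;> rw [h5] <;> decide) (by
    have h2 := (windb_bd hg hω t).2.2.1
    rw [hp] at h2
    simp only at h2
    rw [hp, windb_zero, Prod.mk_sub_mk]
    have h1 : cl (0 - (2 * b + 1), 2 * y + 1 - 0) = 3 := by
      unfold cl
      simp only
      split_ifs <;> first | (exfalso; omega) | rfl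
    unfold lS lE
    rw [h1]
    norm_num)
  omega

theorem Wd_left {m n : ℕ} {b c : ℤ} (hg : Geo m n b c) {ω : Finset Edge}
    (hω : ω ∈ cfg m n b c) {t : ℕ} (ht : t < TT ω b c) {y : ℤ}
    (hp : pt ω b t = (0, 2 * y + 1)) : Wd ω b t = 2 :=
  Wd_left_le hg hω ht.le hp

theorem Wd_stop {m n : ℕ} {b c : ℤ} (hg : Geo m n b c) {ω : Finset Edge}
    (hω : ω ∈ cfg m n b c) : Wd ω b (TT ω b c) = 2 :=
  Wd_left_le hg hω le_rfl (y := c) (hits hg hω).1

theorem Wd_br {m n : ℕ} {b c : ℤ} (hg : Geo m n b c) {ω : Finset Edge}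
    (hω : ω ∈ cfg m n b c) {t : ℕ} (ht : t < TT ω b c) {x : ℤ} (hx : b < x)
    (hp : pt ω b t = (2 * x, 0)) : Wd ω b t = -1 := by
  have ht1 : 1 ≤ t := by
    rcases Nat.eq_zero_or_pos t with h | h
    · exfalso
      rw [h, windb_zero, Prod.mk.injEq] at hp
      omega
    · exact h
  have key := windb_core hg hω ht1 ht.le lift_N (k := 7) (e := -8) (by
    intro i _ h
    have h1 := windb_bd hg hω i
    rw [hp, Prod.fst_sub, Prod.snd_sub] at h
    simp only at h
    omega) (by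
    have h1 := (last_step ω (pt ω b (t - 1)) x 0).2.2.2
      (by rw [windb_prev ω b ht1, hp]; simp)
    rw [windb_prev ω b ht1] at h1
    rw [h1]
    rcases wind_dl ω (pt ω b (t - 1)) with h5 | h5 <;> rw [h5] <;> decide) (by
    rw [hp, windb_zero, Prod.mk_sub_mk]
    have h1 : cl (2 * x - (2 * b + 1), 0 - 0) = 0 := by
      unfold cl
      rw [if_pos (by simp), if_pos (by simp only; omega)]
    unfold lS lN
    rw [h1]
    norm_num)
  omega

theorem Wd_arcB {m n : ℕ} {b c : ℤ} (hg : Geo m n b c) {ω : Finset Edge}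
    (hω : ω ∈ cfg m n b c) {t : ℕ} (ht : t < TT ω b c) {j : ℤ} (hj : 0 ≤ j) (hj' : j < b)
    (hp : pt ω b t = (2 * j + 2, 1)) : Wd ω b t = 2 := by
  have ht1 : 1 ≤ t := by
    rcases Nat.eq_zero_or_pos t with h | h
    · exfalso
      rw [h, windb_zero, Prod.mk.injEq] at hp
      omega
    · exact h
  have key := windb_core hg hω ht1 ht.le lift_N (k := 5) (e := 0) (by
    intro i hi h
    have h1 := windb_bd hg hω i
    have h2 : pt ω b i ∈ DD ω b c := mem_run.2 ⟨i, hi.trans ht, rfl⟩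
    have h3 := DD_under hg hω h2
    rw [hp, Prod.fst_sub, Prod.snd_sub] at h
    simp only at h
    apply h3.1
    omega) (by
    have h1 := (last_step ω (pt ω b (t - 1)) (j + 1) 0).2.2.1
      (by rw [windb_prev ω b ht1, hp, Prod.mk.injEq]; constructor <;> ring)
    rw [windb_prev ω b ht1] at h1
    rw [h1]
    rcases wind_dl ω (pt ω b (t - 1)) with h5 | h5 <;> rw [h5] <;> decide) (by
    rw [hp, windb_zero, Prod.mk_sub_mk]
    have h1 : cl (2 * j + 2 - (2 * b + 1), 1 - 0) = 3 := by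
      unfold cl
      simp only
      split_ifs <;> first | (exfalso; omega) | rfl
    unfold lS lN
    rw [h1]
    norm_num)
  omega

theorem Wd_arcL {m n : ℕ} {b c : ℤ} (hg : Geo m n b c) {ω : Finset Edge}
    (hω : ω ∈ cfg m n b c) {t : ℕ} (ht : t < TT ω b c) {j : ℤ} (hj : 0 ≤ j) (hj' : j < c)
    (hp : pt ω b t = (1, 2 * j + 1)) : Wd ω b t = 1 := by
  have hb0 := hg.hb0
  have ht1 : 1 ≤ t := by
    rcases Nat.eq_zero_or_pos t with h | h
    · exfalso
      rw [h, windb_zero, Prod.mk.injEq] at hp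
      omega
    · exact h
  have key := windb_core hg hω ht1 ht.le lift_E (k := 3) (e := 0) (by
    intro i hi h
    have h1 := windb_bd hg hω i
    have h2 : pt ω b i ∈ DD ω b c := mem_run.2 ⟨i, hi.trans ht, rfl⟩
    have h3 := DD_under hg hω h2
    rw [hp, Prod.fst_sub, Prod.snd_sub] at h
    simp only at h
    apply h3.2
    omega) (by
    have h1 := (last_step ω (pt ω b (t - 1)) 0 j).2.1
      (by rw [windb_prev ω b ht1, hp, Prod.mk.injEq]; constructor <;> ring)
    rw [windb_prev ω b ht1] at h1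
    rw [h1]
    rcases wind_dl ω (pt ω b (t - 1)) with h5 | h5 <;> rw [h5] <;> decide) (by
    rw [hp, windb_zero, Prod.mk_sub_mk]
    have h1 : cl (1 - (2 * b + 1), 2 * j + 1 - 0) = 3 ∨ cl (1 - (2 * b + 1), 2 * j + 1 - 0) = 2 := by
      unfold cl
      simp only
      split_ifs <;> first | (exfalso; omega) | simp
    unfold lS lE
    rcases h1 with h1 | h1 <;> rw [h1] <;> norm_num)
  omega

end FKI.L
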