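import Pool.Agent.Lib.MP_216314_pr.Loc
import Pool.Agent.Lib.MP_216314_pr.L.WindB
import Pool.Agent.Lib.MP_216314_pr.L.Sep

/-!
# The local relation, arc through the corner `(0,0)` (adaptation of `Loc`)
-/

set_option autoImplicit false

noncomputable section

namespace FKI.L

open Finset

theorem insert_cfg {m n : ℕ} {b c : ℤ} {ω : Finset Edge} {e : Edge} (he : e ∈ edges m n)
    (hω : ω ∈ cfg m n b c) : insert e ω ∈ cfg m n b c := by
  rw [mem_cfg] at hω ⊢
  exact ⟨Finset.insert_subset he hω.1, hω.2.trans (Finset.subset_insert _ _)⟩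

/-- the local relation at the edge `e` for the pair `ω`, `insert e ω` -/
theorem loc_edge {m n : ℕ} {b c : ℤ} (hgeo : Geo m n b c) {g : ℤ → ℝ} {s : ℝ}
    (hg : ∀ w, g (w + 1) + g (w - 1) = s * g w) {ω : Finset Edge} {e : Edge}
    (he : e ∈ edges m n) (heω : e ∉ ω) (hω : ω ∈ cfg m n b c) :
    wts s m n ω * SS g ω (fun p => edgeOf p = e) 0 (DD ω b c) +
      wts s m n (insert e ω) *
        SS g (insert e ω) (fun p => edgeOf p = e) 0 (DD (insert e ω) b c) = 0 := by
  have hω' := insert_cfg he hω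
  have hT := hits hgeo hω
  have hT' := hits hgeo hω'
  have h3 : ∀ p, p ≠ c1 e → p ≠ c2 e → next (insert e ω) p = next ω p := by
    intro p hp1 hp2
    refine next_insert_of_ne fun h => ?_
    rcases (edgeOf_eq_iff p e).1 h with h4 | h4
    · exact hp1 h4
    · exact hp2 h4
  have ht : ((DD ω b c).map (dl ω)).sum = ((DD (insert e ω) b c).map (dl (insert e ω))).sum := by
    have g1 : ((DD ω b c).map (dl ω)).sum = 2 := (Wd_eq_sum ω b _).symm.trans (Wd_stop hgeo hω)
    have g2 : ((DD (insert e ω) b c).map (dl (insert e ω))).sum = 2 :=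
      (Wd_eq_sum (insert e ω) b _).symm.trans (Wd_stop hgeo hω')
    rw [g1, g2]
  rcases splice (next_inj ω) (next_inj (insert e ω)) (c1_ne_c2 e) (next_insert_c1 heω) (next_insert_c2 heω) h3
    hT hT' (rr_ne_ss hgeo) with ⟨g1, g2, g3⟩ | hL | hL
  · have g3' : DD (insert e ω) b c = DD ω b c := g3
    have g4 : ∀ p ∈ DD ω b c, ¬ edgeOf p = e := by
      intro p hp h
      rcases (edgeOf_eq_iff p e).1 h with rfl | rfl
      · exact g1 hp
      · exact g2 hp
    rw [g3', SS_zero _ _ _ _ _ g4, SS_zero _ _ _ _ _ g4]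
    ring
  · have hL' : Longer (c1 e) (c2 e) (DD ω b c) (DD (insert e ω) b c) := hL
    obtain ⟨m1, m2⟩ := loc_mem hL'
    have g1 := loc_closed hg heω hL' ht
    rw [wts_reach he heω s (reach_of_both hgeo hω m1 m2)]
    have g2 : ∀ W X Y : ℝ, W * X + s * W * Y = W * (X + s * Y) := fun W X Y => by ring
    rw [g2, g1, mul_zero]
  · have hL' : Longer (c1 e) (c2 e) (DD (insert e ω) b c) (DD ω b c) := hL
    obtain ⟨m1, m2⟩ := loc_mem hL'
    have g1 := loc_open hg heω hL' ht
    rw [wts_not_reach he heω s (not_reach hgeo he hω heω m1 m2)]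
    have g2 : ∀ W X Y : ℝ, s * W * X + W * Y = W * (s * X + Y) := fun W X Y => by ring
    rw [g2, g1, mul_zero]

end FKI.L
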