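import Pool.Agent.Lib.MP_216314_pr.L.Run
import Pool.Agent.Lib.MP_216314_pr.VisB
import Pool.Agent.Lib.MP_216314_pr.VisC

/-!
# Boundary corners of the cluster of the arc, arc through the corner `(0,0)` (adaptation of `VisA`, `VisB`, `VisC`)
-/

set_option autoImplicit false

noncomputable section

namespace FKI.L

open Finset

theorem par_add (c o : Edge → ZMod 2) (p : V) : par (c + o) p = par c p + par o p := by
  unfold par
  rw [← Finset.sum_add_distrib]
  rfl

theorem par_row {m n : ℕ} {ω : Finset Edge} (hω : ω ⊆ edges m n) {ch : Edge → ZMod 2}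
    (hc : ∀ e ∉ ω, ch e = 0) (c : ℤ) : par ch (ss c) = 0 := by
  unfold par ss
  apply Finset.sum_eq_zero
  intro k _
  refine hc _ fun hmem => ?_
  have h1 := hω hmem
  unfold edges at h1
  simp only [Finset.mem_union, Finset.mem_product, Finset.mem_Ico, Finset.mem_Icc,
    Finset.mem_singleton] at h1
  rcases h1 with h1 | h1
  · omega
  · simp at h1

theorem vis_of_chain {m n : ℕ} {b c : ℤ} (hg : Geo m n b c) {ω : Finset Edge}
    (hω : ω ∈ cfg m n b c) {v : V} {p0 : V} (o : Edge → ZMod 2)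
    (hbd : ∀ w, bd o w = ind v w + ind (0, 0) w) (hlow : ∀ x k t, k < -1 → o (x, k, t) = 0)
    (ho : ∀ p ∈ cor m n, o (edgeOf p) ≠ 0 → p = p0 ∨ p = (0, 0))
    (hd : o (b, -1, false) ≠ par o (ss c))
    (hr : (gr ω).Reachable (0, 0) v) : p0 ∈ DD ω b c := by
  have hωe : ω ⊆ edges m n := (mem_cfg.1 hω).1
  obtain ⟨ch, hc0, hcb⟩ := pth hr
  have hrow := fun x k t hk => visA_row hωe hc0 x k t hk
  have hclo : Clo (ch + o) := by
    constructor
    · intro w
      rw [bd_add, hcb, hbd]
      exact visA_char _ _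
    · intro x k t hk
      rw [Pi.add_apply, hrow x k t (by omega), hlow x k t hk, add_zero]
  by_contra hp0
  have hH := hits hg hω
  have hstep : ∀ i ≤ TT ω b c, par (ch + o) ((next ω)^[i] (rr b)) = par (ch + o) (rr b) := by
    intro i
    induction i with
    | zero => intro _; rfl
    | succ i ih =>
      intro hi
      have hmem : (next ω)^[i] (rr b) ∈ DD ω b c := mem_run.2 ⟨i, by omega, rfl⟩
      have hcor := DD_mem_cor hg hω hmem
      have hp2 : 0 ≤ ((next ω)^[i] (rr b)).2 := by
        unfold cor at hcor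
        exact (Finset.mem_Icc.1 (Finset.mem_product.1 hcor).2).1
      rw [Function.iterate_succ_apply', par_next hclo ω _ hp2, ih (by omega)]
      split_ifs with hedge
      · exact add_zero _
      · have h1 : ch (edgeOf ((next ω)^[i] (rr b))) = 0 := hc0 _ hedge
        have h2 : o (edgeOf ((next ω)^[i] (rr b))) = 0 := by
          by_contra hne
          rcases ho _ hcor hne with h3 | h3
          · rw [h3] at hmem
            exact hp0 hmem
          · rw [h3] at hmem
            have h4 := (DD_under hg hω hmem).1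
            have h5 := hg.hb0
            apply h4
            refine ⟨rfl, le_rfl, ?_⟩
            show (0 : ℤ) ≤ 2 * b
            omega
        rw [Pi.add_apply, h1, h2, add_zero, add_zero]
  have h1 := hstep (TT ω b c) le_rfl
  rw [hH.1] at h1
  have h2 : par (ch + o) (ss c) = par o (ss c) := by
    rw [par_add, par_row hωe hc0, zero_add]
  have h3 : par (ch + o) (rr b) = o (b, -1, false) := by
    unfold rr
    rw [visA_par_zero (ch + o) (2 * b + 1) b (by omega), Pi.add_apply,
      hrow b (-1) false (by omega), zero_add]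
  rw [h2, h3] at h1
  exact hd h1.symm

/-- the parity of a chain without edges in the column `-1` at the stop -/
theorem par_ss_zero (o : Edge → ZMod 2) (c : ℤ) (h : ∀ k, k ≤ c → o (-1, k, false) = 0) :
    par o (ss c) = 0 := by
  unfold par ss
  apply Finset.sum_eq_zero
  intro k hk
  rw [mem_Ico] at hk
  have e : ((((0 : ℤ), 2 * c + 1) : V).1 - 1) / 2 = -1 := by
    show ((0 : ℤ) - 1) / 2 = -1
    norm_num
  rw [e]
  apply h
  have : (((0 : ℤ), 2 * c + 1) : V).2 = 2 * c + 1 := rfl
  rw [this] at hk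
  omega

/-- the parity of a chain whose only edge in the column `-1` up to the height `c` is `(-1,-1)` -/
theorem par_ss_one (o : Edge → ZMod 2) (c : ℤ) (hc : 0 ≤ c) (h1 : o (-1, -1, false) = 1)
    (h : ∀ k, 0 ≤ k → k ≤ c → o (-1, k, false) = 0) :
    par o (ss c) = 1 := by
  unfold par ss
  have e : ((((0 : ℤ), 2 * c + 1) : V).1 - 1) / 2 = -1 := by
    show ((0 : ℤ) - 1) / 2 = -1
    norm_num
  rw [e]
  have e2 : (((0 : ℤ), 2 * c + 1) : V).2 = 2 * c + 1 := rfl
  rw [e2]
  rw [Finset.sum_eq_single (-1 : ℤ)]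
  · exact h1
  · intro k hk hne
    rw [mem_Ico] at hk
    exact h k (by omega) (by omega)
  · intro hne
    exfalso
    apply hne
    rw [mem_Ico]
    omega

theorem vis_right {m n : ℕ} {b c : ℤ} (hg : Geo m n b c) {ω : Finset Edge}
    (hω : ω ∈ cfg m n b c) {y : ℤ} (h0 : 0 ≤ y) (h1 : y ≤ n) :
    (2 * (m : ℤ) + 1, 2 * y) ∈ DD ω b c ↔ (gr ω).Reachable (0, 0) ((m : ℤ), y) := by
  obtain ⟨hb0, hb, hc0, hc⟩ := hg
  have hg : Geo m n b c := ⟨hb0, hb, hc0, hc⟩
  constructor
  · intro h
    have h2 := DD_reach hg hω h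
    have h3 : vtx (2 * (m : ℤ) + 1, 2 * y) = ((m : ℤ), y) := by
      have e1 : (2 * (m : ℤ) + 1) / 2 = m := by omega
      have e2 : (2 * y) / 2 = y := by omega
      show ((2 * (m : ℤ) + 1) / 2, (2 * y) / 2) = ((m : ℤ), y)
      rw [e1, e2]
    rwa [h3] at h2
  · intro h
    refine vis_of_chain hg hω (v := ((m : ℤ), y))
      (hs y m (m + 1) + vs (m + 1) (-1) y + hs (-1) 0 (m + 1) + vs 0 (-1) 0) ?_ ?_ ?_ ?_ h
    · intro w
      rw [bd_add, bd_add, bd_add, bd_hs (by omega), bd_vs (by omega), bd_hs (by omega), bd_vs (by omega)]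
      exact visb_cancel4 _ _ _ _ _
    · intro x k t hk
      show hs y m (m + 1) (x, k, t) + vs (m + 1) (-1) y (x, k, t) + hs (-1) 0 (m + 1) (x, k, t) +
        vs 0 (-1) 0 (x, k, t) = 0
      cases t
      · rw [visb_hs_f, visb_vs_f, visb_hs_f, visb_vs_f, if_neg (by omega), if_neg (by omega)]
        decide
      · rw [visb_hs_t, visb_vs_t, visb_hs_t, visb_vs_t, if_neg (by omega), if_neg (by omega)]
        decide
    · intro p hp hne
      by_contra hcon
      push Not at hcon
      obtain ⟨hc1, hc2⟩ := hcon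
      apply hne
      show hs y m (m + 1) (edgeOf p) + vs (m + 1) (-1) y (edgeOf p) + hs (-1) 0 (m + 1) (edgeOf p) +
        vs 0 (-1) 0 (edgeOf p) = 0
      rcases corner_cases p with ⟨x', y', rfl⟩ | ⟨x', y', rfl⟩ | ⟨x', y', rfl⟩ | ⟨x', y', rfl⟩ <;>
        simp only [cor, mem_product, mem_Icc] at hp <;>
        simp only [Ne, Prod.mk.injEq] at hc1 hc2
      · rw [edgeOf_SE, visb_hs_f, visb_vs_f, visb_hs_f, visb_vs_f, if_neg (by omega), if_neg (by omega)]
        decide
      · rw [edgeOf_NE, visb_hs_t, visb_vs_t, visb_hs_t, visb_vs_t, if_neg (by omega), if_neg (by omega)]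
        decide
      · rw [edgeOf_NW, visb_hs_f, visb_vs_f, visb_hs_f, visb_vs_f, if_neg (by omega), if_neg (by omega)]
        decide
      · rw [edgeOf_SW, visb_hs_t, visb_vs_t, visb_hs_t, visb_vs_t, if_neg (by omega), if_neg (by omega)]
        decide
    · rw [par_ss_zero]
      · show hs y m (m + 1) (b, -1, false) + vs (m + 1) (-1) y (b, -1, false) +
          hs (-1) 0 (m + 1) (b, -1, false) + vs 0 (-1) 0 (b, -1, false) ≠ 0
        rw [visb_hs_f, visb_vs_f, visb_hs_f, visb_vs_f, if_neg (by omega), if_pos (by omega)]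
        decide
      · intro k _
        show hs y m (m + 1) (-1, k, false) + vs (m + 1) (-1) y (-1, k, false) +
          hs (-1) 0 (m + 1) (-1, k, false) + vs 0 (-1) 0 (-1, k, false) = 0
        rw [visb_hs_f, visb_vs_f, visb_hs_f, visb_vs_f, if_neg (by omega), if_neg (by omega)]
        decide

theorem vis_top {m n : ℕ} {b c : ℤ} (hg : Geo m n b c) {ω : Finset Edge} (hω : ω ∈ cfg m n b c)
    {x : ℤ} (h0 : 0 ≤ x) (h1 : x ≤ m) :
    (2 * x + 1, 2 * (n : ℤ) + 1) ∈ DD ω b c ↔ (gr ω).Reachable (0, 0) (x, (n : ℤ)) := by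
  obtain ⟨hb0, hb, hc0, hc⟩ := hg
  have hg : Geo m n b c := ⟨hb0, hb, hc0, hc⟩
  constructor
  · intro h
    have h2 := DD_reach hg hω h
    have h3 : vtx (2 * x + 1, 2 * (n : ℤ) + 1) = (x, (n : ℤ)) := by
      have e1 : (2 * (n : ℤ) + 1) / 2 = n := by omega
      have e2 : (2 * x + 1) / 2 = x := by omega
      show ((2 * x + 1) / 2, (2 * (n : ℤ) + 1) / 2) = (x, (n : ℤ))
      rw [e1, e2]
    rwa [h3] at h2
  · intro h
    refine vis_of_chain hg hω (v := (x, (n : ℤ)))
      (vs x n (n + 1) + hs (n + 1) x (m + 1) + vs (m + 1) (-1) (n + 1) + hs (-1) 0 (m + 1) + vs 0 (-1) 0)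
      ?_ ?_ ?_ ?_ h
    · intro w
      rw [bd_add, bd_add, bd_add, bd_add, bd_vs (by omega), bd_hs (by omega), bd_vs (by omega), bd_hs (by omega),
        bd_vs (by omega)]
      exact visb_cancel5 _ _ _ _ _ _
    · intro x' k t hk
      show vs x n (n + 1) (x', k, t) + hs (n + 1) x (m + 1) (x', k, t) + vs (m + 1) (-1) (n + 1) (x', k, t) +
        hs (-1) 0 (m + 1) (x', k, t) + vs 0 (-1) 0 (x', k, t) = 0
      cases t
      · rw [visb_vs_f, visb_hs_f, visb_vs_f, visb_hs_f, visb_vs_f, if_neg (by omega), if_neg (by omega)]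
        decide
      · rw [visb_vs_t, visb_hs_t, visb_vs_t, visb_hs_t, visb_vs_t, if_neg (by omega), if_neg (by omega),
          if_neg (by omega)]
        decide
    · intro p hp hne
      by_contra hcon
      push Not at hcon
      obtain ⟨hc1, hc2⟩ := hcon
      apply hne
      show vs x n (n + 1) (edgeOf p) + hs (n + 1) x (m + 1) (edgeOf p) + vs (m + 1) (-1) (n + 1) (edgeOf p) +
        hs (-1) 0 (m + 1) (edgeOf p) + vs 0 (-1) 0 (edgeOf p) = 0
      rcases corner_cases p with ⟨x', y', rfl⟩ | ⟨x', y', rfl⟩ | ⟨x', y', rfl⟩ | ⟨x', y', rfl⟩ <;>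
        simp only [cor, mem_product, mem_Icc] at hp <;>
        simp only [Ne, Prod.mk.injEq] at hc1 hc2
      · rw [edgeOf_SE, visb_vs_f, visb_hs_f, visb_vs_f, visb_hs_f, visb_vs_f, if_neg (by omega), if_neg (by omega)]
        decide
      · rw [edgeOf_NE, visb_vs_t, visb_hs_t, visb_vs_t, visb_hs_t, visb_vs_t, if_neg (by omega), if_neg (by omega),
          if_neg (by omega)]
        decide
      · rw [edgeOf_NW, visb_vs_f, visb_hs_f, visb_vs_f, visb_hs_f, visb_vs_f, if_neg (by omega), if_neg (by omega)]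
        decide
      · rw [edgeOf_SW, visb_vs_t, visb_hs_t, visb_vs_t, visb_hs_t, visb_vs_t, if_neg (by omega), if_neg (by omega),
          if_neg (by omega)]
        decide
    · rw [par_ss_zero]
      · show vs x n (n + 1) (b, -1, false) + hs (n + 1) x (m + 1) (b, -1, false) +
          vs (m + 1) (-1) (n + 1) (b, -1, false) + hs (-1) 0 (m + 1) (b, -1, false) +
          vs 0 (-1) 0 (b, -1, false) ≠ 0
        rw [visb_vs_f, visb_hs_f, visb_vs_f, visb_hs_f, visb_vs_f, if_neg (by omega),
          if_pos (by omega)]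
        decide
      · intro k _
        show vs x n (n + 1) (-1, k, false) + hs (n + 1) x (m + 1) (-1, k, false) +
          vs (m + 1) (-1) (n + 1) (-1, k, false) + hs (-1) 0 (m + 1) (-1, k, false) +
          vs 0 (-1) 0 (-1, k, false) = 0
        rw [visb_vs_f, visb_hs_f, visb_vs_f, visb_hs_f, visb_vs_f, if_neg (by omega),
          if_neg (by omega)]
        decide

theorem vis_left {m n : ℕ} {b c : ℤ} (hg : Geo m n b c) {ω : Finset Edge} (hω : ω ∈ cfg m n b c)
    {y : ℤ} (h0 : c < y) (h1 : y ≤ n) :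
    ((0 : ℤ), 2 * y + 1) ∈ DD ω b c ↔ (gr ω).Reachable (0, 0) (0, y) := by
  obtain ⟨hb0, hb, hc0, hc⟩ := hg
  have hg : Geo m n b c := ⟨hb0, hb, hc0, hc⟩
  constructor
  · intro h
    have h2 := DD_reach hg hω h
    have h3 : vtx ((0 : ℤ), 2 * y + 1) = (0, y) := by
      unfold vtx
      refine Prod.ext ?_ ?_
      · show (0 : ℤ) / 2 = 0
        omega
      · show (2 * y + 1) / 2 = y
        omega
    rwa [h3] at h2
  · intro h
    refine vis_of_chain hg hω (v := (0, y))
      (hs y (-1) 0 + vs (-1) (-1) y + hs (-1) (-1) 0 + vs 0 (-1) 0) ?_ ?_ ?_ ?_ h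
    · intro w
      rw [bd_add, bd_add, bd_add, bd_hs (by omega), bd_vs (by omega), bd_hs (by omega),
        bd_vs (by omega)]
      exact visc_c4 _ _ _ _ _
    · intro x k t hk
      show hs y (-1) 0 (x, k, t) + vs (-1) (-1) y (x, k, t) + hs (-1) (-1) 0 (x, k, t) +
        vs 0 (-1) 0 (x, k, t) = 0
      cases t
      · rw [visb_hs_f, visb_vs_f, visb_hs_f, visb_vs_f, if_neg (by omega), if_neg (by omega)]
        decide
      · rw [visb_hs_t, visb_vs_t, visb_hs_t, visb_vs_t, if_neg (by omega), if_neg (by omega)]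
        decide
    · intro p hp hne
      by_contra hcon
      push Not at hcon
      obtain ⟨hc1, hc2⟩ := hcon
      apply hne
      show hs y (-1) 0 (edgeOf p) + vs (-1) (-1) y (edgeOf p) + hs (-1) (-1) 0 (edgeOf p) +
        vs 0 (-1) 0 (edgeOf p) = 0
      rcases corner_cases p with ⟨x', y', rfl⟩ | ⟨x', y', rfl⟩ | ⟨x', y', rfl⟩ | ⟨x', y', rfl⟩ <;>
        simp only [cor, mem_product, mem_Icc] at hp <;>
        simp only [Ne, Prod.mk.injEq] at hc1 hc2
      · rw [edgeOf_SE, visb_hs_f, visb_vs_f, visb_hs_f, visb_vs_f, if_neg (by omega), if_neg (by omega)]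
        decide
      · rw [edgeOf_NE, visb_hs_t, visb_vs_t, visb_hs_t, visb_vs_t, if_neg (by omega), if_neg (by omega)]
        decide
      · rw [edgeOf_NW, visb_hs_f, visb_vs_f, visb_hs_f, visb_vs_f, if_neg (by omega), if_neg (by omega)]
        decide
      · rw [edgeOf_SW, visb_hs_t, visb_vs_t, visb_hs_t, visb_vs_t, if_neg (by omega), if_neg (by omega)]
        decide
    · rw [par_ss_one _ _ hc0]
      · show hs y (-1) 0 (b, -1, false) + vs (-1) (-1) y (b, -1, false) +
          hs (-1) (-1) 0 (b, -1, false) + vs 0 (-1) 0 (b, -1, false) ≠ 1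
        rw [visb_hs_f, visb_vs_f, visb_hs_f, visb_vs_f, if_neg (by omega), if_neg (by omega)]
        decide
      · show hs y (-1) 0 (-1, -1, false) + vs (-1) (-1) y (-1, -1, false) +
          hs (-1) (-1) 0 (-1, -1, false) + vs 0 (-1) 0 (-1, -1, false) = 1
        rw [visb_hs_f, visb_vs_f, visb_hs_f, visb_vs_f, if_neg (by omega), if_pos (by omega)]
        decide
      · intro k hk0 hk
        show hs y (-1) 0 (-1, k, false) + vs (-1) (-1) y (-1, k, false) +
          hs (-1) (-1) 0 (-1, k, false) + vs 0 (-1) 0 (-1, k, false) = 0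
        rw [visb_hs_f, visb_vs_f, visb_hs_f, visb_vs_f, if_neg (by omega), if_neg (by omega)]
        decide

theorem vis_br {m n : ℕ} {b c : ℤ} (hg : Geo m n b c) {ω : Finset Edge} (hω : ω ∈ cfg m n b c)
    {x : ℤ} (h0 : b < x) (h1 : x ≤ m) :
    (2 * x, (0 : ℤ)) ∈ DD ω b c ↔ (gr ω).Reachable (0, 0) (x, 0) := by
  obtain ⟨hb0, hb, hc0, hc⟩ := hg
  have hg : Geo m n b c := ⟨hb0, hb, hc0, hc⟩
  constructor
  · intro h
    have h2 := DD_reach hg hω h
    rwa [visc_vtx] at h2
  · intro hr
    refine vis_of_chain hg hω (vs x (-1) 0 + hs (-1) 0 x + vs 0 (-1) 0) ?_ ?_ ?_ ?_ hr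
    · intro w
      rw [bd_add, bd_add, bd_vs (by omega), bd_hs (by omega), bd_vs (by omega)]
      exact visc_c3 _ _ _ _
    · intro u k t hk
      exact visc_low u k t hk
    · intro p hp hne
      rcases visc_ho p hp hne with h | h
      · exact Or.inl h
      · right
        rw [h]
        rfl
    · rw [par_ss_zero]
      · show vs x (-1) 0 (b, -1, false) + hs (-1) 0 x (b, -1, false) + vs 0 (-1) 0 (b, -1, false) ≠ 0
        rw [visb_vs_f, visb_hs_f, visb_vs_f, if_pos (by omega)]
        decide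
      · intro k _
        show vs x (-1) 0 (-1, k, false) + hs (-1) 0 x (-1, k, false) + vs 0 (-1) 0 (-1, k, false) = 0
        rw [visb_vs_f, visb_hs_f, visb_vs_f, if_neg (by omega)]
        decide

end FKI.L
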