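import Pool.Agent.Lib.MP_216314_pr.SumB
import Pool.Agent.Lib.MP_216314_pr.L.SumA
import Pool.Agent.Lib.MP_216314_pr.L.VisA

/-!
# The boundary terms, arc through the corner `(0,0)` (adaptation of `SumB`)
-/

set_option autoImplicit false

noncomputable section

namespace FKI.L

open Finset

open Classical in
theorem SS_const {m n : ℕ} {b c : ℤ} (hgeo : Geo m n b c) (g : ℤ → ℝ) {ω : Finset Edge}
    (hω : ω ∈ cfg m n b c) (P : V → Prop) (κ : ℝ) (J : Finset ℤ) (q : ℤ → V)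
    (hq : ∀ i ∈ J, ∀ j ∈ J, q i = q j → i = j) (hP : ∀ p ∈ DD ω b c, P p ↔ ∃ j ∈ J, q j = p)
    (hκ : ∀ t < TT ω b c, P (pt ω b t) → ct g ω (pt ω b t) (Wd ω b t) = κ) :
    SS g ω P 0 (DD ω b c) = κ * ((J.filter (fun j => q j ∈ DD ω b c)).card : ℝ) := by
  have hh := hits hgeo hω
  have hDD : ∀ p, p ∈ DD ω b c ↔ ∃ t < TT ω b c, pt ω b t = p := fun p => mem_run
  have h0 : SS g ω P 0 (DD ω b c) = _ := SS_run g ω P b (TT ω b c)
  have h1 : ∑ t ∈ range (TT ω b c),
      (if P (pt ω b t) then ct g ω (pt ω b t) (Wd ω b t) else 0)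
        = ∑ t ∈ (range (TT ω b c)).filter (fun t => P (pt ω b t)), κ := by
    rw [sum_filter]
    apply sum_congr rfl
    intro t ht
    by_cases h : P (pt ω b t)
    · rw [if_pos h, if_pos h, hκ t (mem_range.1 ht) h]
    · rw [if_neg h, if_neg h]
  have h2 : ((range (TT ω b c)).filter (fun t => P (pt ω b t))).image (pt ω b)
      = (J.filter (fun j => q j ∈ DD ω b c)).image q := by
    ext p
    simp only [mem_image, mem_filter, mem_range]
    constructor
    · rintro ⟨t, ⟨ht, hp⟩, rfl⟩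
      have hm : pt ω b t ∈ DD ω b c := (hDD _).2 ⟨t, ht, rfl⟩
      obtain ⟨j, hj, hqj⟩ := (hP _ hm).1 hp
      exact ⟨j, ⟨hj, by rw [hqj]; exact hm⟩, hqj⟩
    · rintro ⟨j, ⟨hj, hm⟩, rfl⟩
      obtain ⟨t, ht, hpt⟩ := (hDD _).1 hm
      refine ⟨t, ⟨ht, ?_⟩, hpt⟩
      rw [hpt]
      exact (hP _ hm).2 ⟨j, hj, rfl⟩
  have h3 : ((range (TT ω b c)).filter (fun t => P (pt ω b t))).card
      = (J.filter (fun j => q j ∈ DD ω b c)).card := by
    have e1 : (((range (TT ω b c)).filter (fun t => P (pt ω b t))).image (pt ω b)).card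
        = ((range (TT ω b c)).filter (fun t => P (pt ω b t))).card := by
      apply card_image_of_injOn
      intro i hi j hj hij
      simp only [coe_filter, Set.mem_setOf_eq, mem_range] at hi hj
      exact hits_inj (next_inj ω) hh hi.1.le hj.1.le hij
    have e2 : ((J.filter (fun j => q j ∈ DD ω b c)).image q).card
        = (J.filter (fun j => q j ∈ DD ω b c)).card := by
      apply card_image_of_injOn
      intro i hi j hj hij
      simp only [coe_filter, Set.mem_setOf_eq] at hi hj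
      exact hq i hi.1 j hj.1 hij
    rw [← e1, ← e2, h2]
  rw [h0, h1, sum_const, nsmul_eq_mul, mul_comm, h3]

theorem sumb_const {m n : ℕ} {b c : ℤ} (hgeo : Geo m n b c) (g : ℤ → ℝ) {ω : Finset Edge}
    (hω : ω ∈ cfg m n b c) (κ : ℤ) (J : Finset ℤ) (q : ℤ → V)
    (hq : ∀ i ∈ J, ∀ j ∈ J, q i = q j → i = j)
    (he : ∀ j ∈ J, edgeOf (q j) ∉ edges m n)
    (hκ : ∀ t < TT ω b c, ∀ j ∈ J, pt ω b t = q j → Wd ω b t = κ)
    (R : ℤ → Prop) [DecidablePred R] (hR : ∀ j ∈ J, q j ∈ DD ω b c ↔ R j) :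
    SS g ω (sumb_K J q) 0 (DD ω b c) = g κ * ((J.filter R).card : ℝ) := by
  classical
  have h := SS_const hgeo g hω (sumb_K J q) (g κ) J q hq (fun p _ => Iff.rfl) (by
    rintro t ht ⟨j, hj, hjt⟩
    have h1 : edgeOf (pt ω b t) ∉ ω := fun h => he j hj (by rw [hjt]; exact (mem_cfg.1 hω).1 h)
    rw [ct, if_neg h1, hκ t ht j hj hjt.symm])
  rw [h]
  congr 3
  apply filter_congr
  exact hR

open Classical in
theorem sumb_ind {m n : ℕ} {b c : ℤ} (hgeo : Geo m n b c) {ω : Finset Edge}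
    (hω : ω ∈ cfg m n b c) {p : V} (hp : p ∈ DD ω b c) (k : ℝ) :
    (if edgeOf p ∉ edges m n then k else 0) =
      (if sumb_K (Icc 0 (n : ℤ)) (fun y => (2 * (m : ℤ) + 1, 2 * y)) p then k else 0) +
      (if sumb_K (Icc 0 (m : ℤ)) (fun x => (2 * x + 1, 2 * (n : ℤ) + 1)) p then k else 0) +
      (if sumb_K (Ioc c (n : ℤ)) (fun y => (0, 2 * y + 1)) p then k else 0) +
      (if sumb_K (Ioc b (m : ℤ)) (fun x => (2 * x, 0)) p then k else 0) := by
  have hb0 := hgeo.hb0
  have hc0 := hgeo.hc0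
  have hb := hgeo.hb
  by_cases h : edgeOf p ∉ edges m n
  · rw [if_pos h]
    have hu := DD_under hgeo hω hp
    rcases bdry_corners (DD_mem_cor hgeo hω hp) h with
      ⟨y, h0, h1, rfl⟩ | ⟨x, h0, h1, rfl⟩ | ⟨y, h0, h1, rfl⟩ | ⟨x, h0, h1, rfl⟩
    · rw [if_pos ⟨y, mem_Icc.2 ⟨h0, h1⟩, rfl⟩, if_neg, if_neg, if_neg]
      · ring
      all_goals
        rintro ⟨j, hj, hj2⟩
        simp only [Prod.mk.injEq] at hj2
        omega
    · rw [if_neg, if_pos ⟨x, mem_Icc.2 ⟨h0, h1⟩, rfl⟩, if_neg, if_neg]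
      · ring
      all_goals
        rintro ⟨j, hj, hj2⟩
        simp only [Prod.mk.injEq] at hj2
        omega
    · simp only [true_and] at hu
      have hy2 : c < y := by omega
      rw [if_neg, if_neg, if_pos ⟨y, mem_Ioc.2 ⟨hy2, h1⟩, rfl⟩, if_neg]
      · ring
      all_goals
        rintro ⟨j, hj, hj2⟩
        simp only [Prod.mk.injEq] at hj2
        omega
    · simp only [true_and] at hu
      have hx2 : b < x := by omega
      rw [if_neg, if_neg, if_neg, if_pos ⟨x, mem_Ioc.2 ⟨hx2, h1⟩, rfl⟩]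
      · ring
      all_goals
        rintro ⟨j, hj, hj2⟩
        simp only [Prod.mk.injEq] at hj2
        omega
  · rw [if_neg h, if_neg, if_neg, if_neg, if_neg]
    · ring
    · rintro ⟨j, hj, rfl⟩
      apply h
      have e := edgeOf_SW j 0
      rw [mul_zero] at e
      simp only [e, mem_edges]
      simp
    · rintro ⟨j, hj, rfl⟩
      apply h
      have e := edgeOf_NW 0 j
      rw [mul_zero] at e
      simp only [e, mem_edges]
      simp
    · rintro ⟨j, hj, rfl⟩
      apply h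
      simp only [edgeOf_NE, mem_edges]
      simp
    · rintro ⟨j, hj, rfl⟩
      apply h
      simp only [edgeOf_SE, mem_edges]
      simp

theorem SS_out {m n : ℕ} {b c : ℤ} (hgeo : Geo m n b c) (g : ℤ → ℝ) {ω : Finset Edge}
    (hω : ω ∈ cfg m n b c) (R1 R2 R3 R4 : ℤ → Prop) [DecidablePred R1] [DecidablePred R2]
    [DecidablePred R3] [DecidablePred R4]
    (h1 : ∀ y, R1 y ↔ (gr ω).Reachable (0, 0) ((m : ℤ), y))
    (h2 : ∀ x, R2 x ↔ (gr ω).Reachable (0, 0) (x, (n : ℤ)))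
    (h3 : ∀ y, R3 y ↔ (gr ω).Reachable (0, 0) (0, y))
    (h4 : ∀ x, R4 x ↔ (gr ω).Reachable (0, 0) (x, 0)) :
    SS g ω (fun p => edgeOf p ∉ edges m n) 0 (DD ω b c) =
      g 0 * (((Icc 0 (n : ℤ)).filter R1).card : ℝ) + g 1 * (((Icc 0 (m : ℤ)).filter R2).card : ℝ)
        + g 2 * (((Ioc c (n : ℤ)).filter R3).card : ℝ)
        + g (-1) * (((Ioc b (m : ℤ)).filter R4).card : ℝ) := by
  classical
  have hb0 := hgeo.hb0
  have hc0 := hgeo.hc0
  have hb := hgeo.hb
  have c0 := sumb_const hgeo g hω 0 (Icc 0 (n : ℤ)) (fun y => (2 * (m : ℤ) + 1, 2 * y))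
    (by
      intro i _ j _ h
      simp only [Prod.mk.injEq] at h
      omega)
    (by
      intro j _
      simp only [edgeOf_SE, mem_edges]
      simp)
    (fun t ht j _ h => Wd_right hgeo hω ht h)
    R1
    (fun j hj => (vis_right hgeo hω (mem_Icc.1 hj).1 (mem_Icc.1 hj).2).trans (h1 j).symm)
  have c1 := sumb_const hgeo g hω 1 (Icc 0 (m : ℤ)) (fun x => (2 * x + 1, 2 * (n : ℤ) + 1))
    (by
      intro i _ j _ h
      simp only [Prod.mk.injEq] at h
      omega)
    (by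
      intro j _
      simp only [edgeOf_NE, mem_edges]
      simp)
    (fun t ht j _ h => Wd_top hgeo hω ht h)
    R2
    (fun j hj => (vis_top hgeo hω (mem_Icc.1 hj).1 (mem_Icc.1 hj).2).trans (h2 j).symm)
  have c2 := sumb_const hgeo g hω 2 (Ioc c (n : ℤ)) (fun y => (0, 2 * y + 1))
    (by
      intro i _ j _ h
      simp only [Prod.mk.injEq] at h
      omega)
    (by
      intro j _
      have e := edgeOf_NW 0 j
      rw [mul_zero] at e
      simp only [e, mem_edges]
      simp)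
    (fun t ht j _ h => Wd_left hgeo hω ht h)
    R3
    (fun j hj => (vis_left hgeo hω (mem_Ioc.1 hj).1 (mem_Ioc.1 hj).2).trans (h3 j).symm)
  have c4 := sumb_const hgeo g hω (-1) (Ioc b (m : ℤ)) (fun x => (2 * x, 0))
    (by
      intro i _ j _ h
      simp only [Prod.mk.injEq] at h
      omega)
    (by
      intro j _
      have e := edgeOf_SW j 0
      rw [mul_zero] at e
      simp only [e, mem_edges]
      simp)
    (fun t ht j hj h => Wd_br hgeo hω ht (mem_Ioc.1 hj).1 h)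
    R4
    (fun j hj => (vis_br hgeo hω (mem_Ioc.1 hj).1 (mem_Ioc.1 hj).2).trans (h4 j).symm)
  have hDD : DD ω b c = run (next ω) (rr b) (TT ω b c) := rfl
  have key : SS g ω (fun p => edgeOf p ∉ edges m n) 0 (DD ω b c) =
      SS g ω (sumb_K (Icc 0 (n : ℤ)) (fun y => (2 * (m : ℤ) + 1, 2 * y))) 0 (DD ω b c) +
      SS g ω (sumb_K (Icc 0 (m : ℤ)) (fun x => (2 * x + 1, 2 * (n : ℤ) + 1))) 0 (DD ω b c) +
      SS g ω (sumb_K (Ioc c (n : ℤ)) (fun y => (0, 2 * y + 1))) 0 (DD ω b c) +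
      SS g ω (sumb_K (Ioc b (m : ℤ)) (fun x => (2 * x, 0))) 0 (DD ω b c) := by
    rw [hDD]
    simp only [SS_run]
    rw [← sum_add_distrib, ← sum_add_distrib, ← sum_add_distrib]
    apply sum_congr rfl
    intro t ht
    rw [← sumb_ind hgeo hω (p := pt ω b t) (mem_run.2 ⟨t, mem_range.1 ht, rfl⟩)]
    by_cases h : edgeOf (pt ω b t) ∉ edges m n
    · rw [if_pos h, if_pos h]
    · rw [if_neg h, if_neg h]
  rw [key, c0, c1, c2, c4]

theorem SS_arc {m n : ℕ} {b c : ℤ} (hgeo : Geo m n b c) (g : ℤ → ℝ) {ω : Finset Edge}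
    (hω : ω ∈ cfg m n b c) (R1 R2 : ℤ → Prop) [DecidablePred R1] [DecidablePred R2]
    (h1 : ∀ j, R1 j ↔ (2 * j + 2, (1 : ℤ)) ∈ DD ω b c)
    (h2 : ∀ j, R2 j ↔ ((1 : ℤ), 2 * j + 1) ∈ DD ω b c) :
    SS g ω (fun p => edgeOf p ∈ edges m n ∩ arc b c) 0 (DD ω b c) =
      - g 1 * (((Ico 0 b).filter R1).card : ℝ) - g 0 * (((Ico 0 c).filter R2).card : ℝ) := by
  classical
  have hb0 := hgeo.hb0
  have hc0 := hgeo.hc0
  have hb := hgeo.hb
  have hc := hgeo.hc
  -- the corners at the lower side of the arc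
  have k1 : ∀ p ∈ DD ω b c, (edgeOf p ∈ edges m n ∩ arc b c ∧ (edgeOf p).2.2 = false) ↔
      ∃ j ∈ Ico 0 b, (fun j : ℤ => ((2 * j + 2, 1) : V)) j = p := by
    intro p hp
    have hu := (DD_under hgeo hω hp).1
    constructor
    · rintro ⟨h, hf⟩
      rw [mem_inter] at h
      obtain ⟨-, h2⟩ := h
      rcases corner_cases p with ⟨x, y, rfl⟩ | ⟨x, y, rfl⟩ | ⟨x, y, rfl⟩ | ⟨x, y, rfl⟩
      · rw [edgeOf_SE] at h2
        simp [arc] at h2
        exfalso
        apply hu
        simp only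
        omega
      · rw [edgeOf_NE] at hf
        simp at hf
      · rw [edgeOf_NW] at h2
        simp [arc] at h2
        refine ⟨x - 1, mem_Ico.2 ⟨by omega, by omega⟩, ?_⟩
        simp only [Prod.mk.injEq]
        omega
      · rw [edgeOf_SW] at hf
        simp at hf
    · rintro ⟨j, hj, rfl⟩
      rw [mem_Ico] at hj
      have e : edgeOf (2 * j + 2, 1) = (j, 0, false) := by
        have e1 := edgeOf_NW (j + 1) 0
        have e2 : ((2 * (j + 1), 2 * 0 + 1) : V) = (2 * j + 2, 1) := by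
          simp only [Prod.mk.injEq]
          omega
        rw [e2] at e1
        rw [e1]
        simp
      simp only [e, mem_inter, mem_edges]
      simp [arc]
      omega
  -- the corners at the left side of the arc
  have k2 : ∀ p ∈ DD ω b c, (edgeOf p ∈ edges m n ∩ arc b c ∧ (edgeOf p).2.2 = true) ↔
      ∃ j ∈ Ico 0 c, (fun j : ℤ => ((1, 2 * j + 1) : V)) j = p := by
    intro p hp
    have hu := (DD_under hgeo hω hp).2
    constructor
    · rintro ⟨h, hf⟩
      rw [mem_inter] at h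
      obtain ⟨-, h2⟩ := h
      rcases corner_cases p with ⟨x, y, rfl⟩ | ⟨x, y, rfl⟩ | ⟨x, y, rfl⟩ | ⟨x, y, rfl⟩
      · rw [edgeOf_SE] at hf
        simp at hf
      · rw [edgeOf_NE] at h2
        simp [arc] at h2
        refine ⟨y, mem_Ico.2 ⟨by omega, by omega⟩, ?_⟩
        show ((1 : ℤ), 2 * y + 1) = (2 * x + 1, 2 * y + 1)
        rw [Prod.mk.injEq]
        omega
      · rw [edgeOf_NW] at hf
        simp at hf
      · rw [edgeOf_SW] at h2
        simp [arc] at h2
        exfalso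
        apply hu
        simp only
        omega
    · rintro ⟨j, hj, rfl⟩
      rw [mem_Ico] at hj
      have e : edgeOf (1, 2 * j + 1) = (0, j, true) := by
        have e1 := edgeOf_NE 0 j
        have e2 : ((2 * 0 + 1, 2 * j + 1) : V) = (1, 2 * j + 1) := by
          norm_num
        rw [e2] at e1
        rw [e1]
      simp only [e, mem_inter, mem_edges]
      simp [arc]
      omega
  have s1 := SS_const hgeo g hω (fun p => edgeOf p ∈ edges m n ∩ arc b c ∧ (edgeOf p).2.2 = false)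
    (- g 1) (Ico 0 b) (fun j => (2 * j + 2, 1))
    (by
      intro i _ j _ h
      simp only [Prod.mk.injEq] at h
      omega)
    k1
    (by
      intro t ht hp
      have h1 : edgeOf (pt ω b t) ∈ ω := (mem_cfg.1 hω).2 (mem_inter.1 hp.1).2
      obtain ⟨j, hj, hjt⟩ := (k1 _ (mem_run.2 ⟨t, ht, rfl⟩)).1 hp
      rw [mem_Ico] at hj
      rw [ct, if_pos h1, Wd_arcB hgeo hω ht hj.1 hj.2 hjt.symm]
      norm_num)
  have s2 := SS_const hgeo g hω (fun p => edgeOf p ∈ edges m n ∩ arc b c ∧ (edgeOf p).2.2 = true)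
    (- g 0) (Ico 0 c) (fun j => (1, 2 * j + 1))
    (by
      intro i _ j _ h
      simp only [Prod.mk.injEq] at h
      omega)
    k2
    (by
      intro t ht hp
      have h1 : edgeOf (pt ω b t) ∈ ω := (mem_cfg.1 hω).2 (mem_inter.1 hp.1).2
      obtain ⟨j, hj, hjt⟩ := (k2 _ (mem_run.2 ⟨t, ht, rfl⟩)).1 hp
      rw [mem_Ico] at hj
      rw [ct, if_pos h1, Wd_arcL hgeo hω ht hj.1 hj.2 hjt.symm]
      norm_num)
  have hDD : DD ω b c = run (next ω) (rr b) (TT ω b c) := rfl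
  have key : SS g ω (fun p => edgeOf p ∈ edges m n ∩ arc b c) 0 (DD ω b c) =
      SS g ω (fun p => edgeOf p ∈ edges m n ∩ arc b c ∧ (edgeOf p).2.2 = false) 0 (DD ω b c) +
      SS g ω (fun p => edgeOf p ∈ edges m n ∩ arc b c ∧ (edgeOf p).2.2 = true) 0 (DD ω b c) := by
    rw [hDD]
    simp only [SS_run]
    rw [← sum_add_distrib]
    apply sum_congr rfl
    intro t _
    by_cases h : edgeOf (pt ω b t) ∈ edges m n ∩ arc b c
    · cases hb : (edgeOf (pt ω b t)).2.2
      · rw [if_pos h, if_pos ⟨h, rfl⟩, if_neg (by simp), add_zero]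
      · rw [if_pos h, if_neg (by simp), if_pos ⟨h, rfl⟩, zero_add]
    · rw [if_neg h, if_neg (fun h' => h h'.1), if_neg (fun h' => h h'.1), add_zero]
  rw [key, s1, s2]
  have e1 : (Ico 0 b).filter (fun j => (2 * j + 2, (1 : ℤ)) ∈ DD ω b c) = (Ico 0 b).filter R1 := by
    apply filter_congr
    intro j _
    exact (h1 j).symm
  have e2 : (Ico 0 c).filter (fun j => ((1 : ℤ), 2 * j + 1) ∈ DD ω b c) = (Ico 0 c).filter R2 := by
    apply filter_congr
    intro j _
    exact (h2 j).symm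
  rw [e1, e2]
  ring

end FKI.L
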